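import Mathlib

namespace Pool.Agent.Results.MP_6598fd_al.Singer

open Matrix

theorem result (F : Type) [Field F] [Finite F] (n : ℕ) (hn : 2 ≤ n) :
    ∃ G : Subgroup (GL (Fin n) F),
      (∀ a : Matrix (Fin n) (Fin n) F, a.det = 0 →
        ∃ g ∈ G, (a * (g : Matrix (Fin n) (Fin n) F) * a).rank = a.rank) ∧
      ¬ (∀ g : GL (Fin n) F, (g : Matrix (Fin n) (Fin n) F).det = 1 → g ∈ G) := by
  classical
  obtain ⟨p, hp⟩ := CharP.exists F
  haveI : Fact p.Prime := ⟨CharP.char_is_prime F p⟩
  haveI : NeZero n := ⟨by omega⟩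
  let E := FiniteField.Extension F p n
  have hr : Module.finrank F E = n := FiniteField.finrank_extension F p n
  let b : Module.Basis (Fin n) F E := Module.finBasisOfFinrankEq F E hr
  let φ : Eˣ →* GL (Fin n) F := Units.map (Algebra.leftMulMatrix b).toMonoidHom
  refine ⟨φ.range, fun a _ => ?_, fun h => ?_⟩
  · let e := b.equivFun
    let U := LinearMap.range a.mulVecLin
    let W := LinearMap.ker a.mulVecLin
    have hq : 2 ≤ Nat.card F := Finite.one_lt_card
    have hU : Nat.card U = Nat.card F ^ Module.finrank F U := Module.natCard_eq_pow_finrank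
    have hW : Nat.card W = Nat.card F ^ Module.finrank F W := Module.natCard_eq_pow_finrank
    have hE : Nat.card E = Nat.card F ^ n := by rw [Module.natCard_eq_pow_finrank (K := F), hr]
    have hUW : Module.finrank F U + Module.finrank F W = n := by
      simpa using LinearMap.finrank_range_add_finrank_ker a.mulVecLin
    have hmul : Nat.card U * Nat.card W = Nat.card E := by rw [hU, hW, hE, ← pow_add, hUW]
    have hE2 : 1 < Nat.card E := Finite.one_lt_card
    let Bad : Set E := (fun z : U × W => e.symm z.2 / e.symm z.1) '' ({0}ᶜ ×ˢ {0}ᶜ)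
    have c1 : ∀ (T : Type) [Finite T] (t : T), ({t}ᶜ : Set T).ncard + 1 = Nat.card T := by
      intro T _ t
      have := Set.ncard_add_ncard_compl ({t} : Set T)
      rw [Set.ncard_singleton] at this
      omega
    have h1 : Bad.ncard < ({0}ᶜ : Set E).ncard := by
      refine lt_of_le_of_lt (Set.ncard_image_le (Set.toFinite _)) ?_
      rw [Set.ncard_prod]
      have a1 := c1 U 0
      have a2 := c1 W 0
      have a3 := c1 E 0
      rw [← a1, ← a2, ← a3] at hmul
      rw [← a3] at hE2
      generalize ({0}ᶜ : Set U).ncard = x at *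
      generalize ({0}ᶜ : Set W).ncard = y at *
      generalize ({0}ᶜ : Set E).ncard = z at *
      rcases Nat.eq_zero_or_pos x with rfl | hx
      · omega
      · nlinarith
    obtain ⟨x, hx0, hx⟩ := Set.exists_mem_notMem_of_ncard_lt_ncard h1
    have hx0' : x ≠ 0 := hx0
    refine ⟨φ (Units.mk0 x hx0'), ⟨_, rfl⟩, ?_⟩
    have hφ : ((φ (Units.mk0 x hx0') : GL (Fin n) F) : Matrix (Fin n) (Fin n) F)
        = Algebra.leftMulMatrix b x := rfl
    have hv : ∀ v, Algebra.leftMulMatrix b x *ᵥ v = e (x * e.symm v) := by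
      intro v
      have := Algebra.leftMulMatrix_mulVec_repr b x (e.symm v)
      have h2 : (b.repr (e.symm v) : Fin n → F) = v := e.apply_symm_apply v
      rw [h2] at this
      exact this
    rw [hφ, Matrix.rank, Matrix.rank, Matrix.mulVecLin_mul, LinearMap.range_comp]
    rw [← LinearMap.range_domRestrict]
    refine LinearMap.finrank_range_of_inj ((injective_iff_map_eq_zero _).2 fun u hu => ?_)
    by_contra hu0
    have hu' : e.symm u.1 ≠ 0 := by
      intro h
      exact hu0 (Subtype.ext (e.symm.map_eq_zero_iff.1 h))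
    have h3 : a *ᵥ (Algebra.leftMulMatrix b x *ᵥ u.1) = 0 := by
      rw [Matrix.mulVec_mulVec]
      exact hu
    apply hx
    refine ⟨(u, ⟨_, h3⟩), ⟨hu0, fun h => ?_⟩, ?_⟩
    · have h4 : Algebra.leftMulMatrix b x *ᵥ u.1 = 0 := congrArg Subtype.val h
      rw [hv, e.map_eq_zero_iff] at h4
      exact mul_ne_zero hx0' hu' h4
    · show e.symm (Algebra.leftMulMatrix b x *ᵥ u.1) / e.symm u.1 = x
      rw [hv, e.symm_apply_apply, mul_div_cancel_right₀ _ hu']
  · have h01 : (⟨0, by omega⟩ : Fin n) ≠ ⟨1, by omega⟩ := by simp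
    obtain ⟨x, hx⟩ := h (SpecialLinearGroup.toGL (SpecialLinearGroup.transvection h01 (1 : F)))
      (SpecialLinearGroup.transvection h01 (1 : F)).2
    obtain ⟨y, hy⟩ := h (SpecialLinearGroup.toGL (SpecialLinearGroup.transvection h01.symm (1 : F)))
      (SpecialLinearGroup.transvection h01.symm (1 : F)).2
    have h1 : φ x * φ y = φ y * φ x := by rw [← map_mul, mul_comm, map_mul]
    rw [hx, hy, ← map_mul, ← map_mul, SpecialLinearGroup.toGL_inj] at h1
    have h2 := congrArg (fun g : SpecialLinearGroup (Fin n) F => g.1 ⟨0, by omega⟩ ⟨0, by omega⟩) h1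
    simp [SpecialLinearGroup.transvection_coe, mul_add, add_mul] at h2

end Pool.Agent.Results.MP_6598fd_al.Singer
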